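import Mathlib
import Pool.Agent.H813R3.Voj.Pts

set_option autoImplicit false

namespace Pool.Agent.Results.MP_651af7_nt.PointsOfTheLine

open Polynomial IntermediateField

/-- The value at `(u, v)` of the binary form of degree `natDegree f` attached to `f`. -/
def value (f : ℤ[X]) (P : ℤ × ℤ) : ℤ :=
  ∑ j ∈ Finset.range (f.natDegree + 1), f.coeff j * P.1 ^ j * P.2 ^ (f.natDegree - j)

/-- The absolute logarithmic height `(log M(f)) / deg f` of the roots of an irreducible primitive
`f` (`M` is the Mahler measure). -/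
noncomputable def height (f : ℤ[X]) : ℝ :=
  Real.log (f.map (Int.castRingHom ℂ)).mahlerMeasure / f.natDegree

/-- The sum over the places `v = ∞` and `v = p ∈ S` of `λ_{D,v}(x)` for `D = ∑ P_j`, `x` a root of
`f`: the average over the conjugates of the distances to the points `P_j`. -/
noncomputable def proximity {q : ℕ} (S : Finset ℕ) (P : Fin q → ℤ × ℤ) (f : ℤ[X]) : ℝ :=
  (∑ j, (Real.log ((f.map (Int.castRingHom ℂ)).mahlerMeasure / |(value f (P j) : ℝ)|) +
    ∑ p ∈ S, (padicValInt p (value f (P j)) : ℝ) * Real.log p)) / f.natDegree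

/-- The truncated counting function of `D = ∑ P_j` outside `S`: the sum of `(log p) / deg f` over
the pairs `(j, p)` with `p ∉ S` a prime dividing the value at `P_j`. -/
noncomputable def truncated {q : ℕ} (S : Finset ℕ) (P : Fin q → ℤ × ℤ) (f : ℤ[X]) : ℝ :=
  (∑ j, ∑ p ∈ (value f (P j)).natAbs.primeFactors \ S, Real.log p) / f.natDegree

open Classical in
/-- The logarithmic discriminant `d(x)` of the field `ℚ(x)`. -/
noncomputable def logDisc (x : ℂ) : ℝ :=
  if _ : NumberField ℚ⟮x⟯ then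
    Real.log |(NumberField.discr ℚ⟮x⟯ : ℝ)| / Module.finrank ℚ ℚ⟮x⟯ else 0

/-- `x` is an algebraic number of degree `r` with minimal polynomial `f` over `ℤ`, of height at
most `log B`, and not in the support of `D = ∑ P_j`. -/
def Pt {q : ℕ} (P : Fin q → ℤ × ℤ) (r : ℕ) (B : ℝ) (x : ℂ) (f : ℤ[X]) : Prop :=
  Irreducible f ∧ f.natDegree = r ∧ aeval x f = 0 ∧ height f ≤ Real.log B ∧
    ∀ j, value f (P j) ≠ 0

lemma logDisc_nonneg (x : ℂ) : 0 ≤ logDisc x := by
  unfold logDisc
  split_ifs with h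
  · refine div_nonneg (Real.log_nonneg ?_) (Nat.cast_nonneg _)
    have h1 : NumberField.discr ℚ⟮x⟯ ≠ 0 := NumberField.discr_ne_zero _
    have h2 : 1 ≤ |NumberField.discr ℚ⟮x⟯| := Int.one_le_abs h1
    exact_mod_cast h2
  · exact le_rfl

lemma height_nonneg {f : ℤ[X]} (hf : f ≠ 0) : 0 ≤ height f :=
  div_nonneg (Real.log_nonneg (Pool.Agent.H813R3.Voj.one_le_mahler hf)) (Nat.cast_nonneg _)

lemma log_rho (S : Finset ℕ) (n : ℤ) :
    Real.log (Pool.Agent.H813R3.Voj.rho S n : ℝ) = ∑ p ∈ n.natAbs.primeFactors \ S, Real.log p := by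
  unfold Pool.Agent.H813R3.Voj.rho
  push_cast
  rw [Real.log_prod]
  intro p hp
  rw [Finset.mem_sdiff] at hp
  exact_mod_cast (Nat.prime_of_mem_primeFactors hp.1).ne_zero

/-- the prime-to-`S` radical and the `S`-part together are at most the number -/
lemma sum_le_log_abs (S : Finset ℕ) (hS : ∀ p ∈ S, p.Prime) (n : ℤ) (hn : n ≠ 0) :
    (∑ p ∈ n.natAbs.primeFactors \ S, Real.log p) +
      ∑ p ∈ S, (padicValInt p n : ℝ) * Real.log p ≤ Real.log |(n : ℝ)| := by
  classical
  have h0 : n.natAbs ≠ 0 := Int.natAbs_ne_zero.mpr hn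
  have h1 : Real.log |(n : ℝ)| = ∑ p ∈ n.natAbs.primeFactors ∪ S,
      (n.natAbs.factorization p : ℝ) * Real.log p := by
    have h2 : |(n : ℝ)| = (n.natAbs : ℝ) := by rw [Nat.cast_natAbs]; push_cast; rfl
    rw [h2]
    conv_lhs => rw [← Nat.prod_factorization_pow_eq_self h0]
    rw [Finsupp.prod, Nat.support_factorization]
    push_cast
    rw [Real.log_prod]
    · rw [← Finset.sum_subset (Finset.subset_union_left (s₂ := S))]
      · exact Finset.sum_congr rfl fun p _ => Real.log_pow _ _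
      · intro p _ hp
        rw [← Nat.support_factorization, Finsupp.notMem_support_iff] at hp
        rw [hp]; simp
    · intro p hp
      have := (Nat.prime_of_mem_primeFactors hp).ne_zero
      positivity
  rw [h1, ← Finset.sum_sdiff (Finset.subset_union_right (s₁ := n.natAbs.primeFactors) (s₂ := S))]
  refine add_le_add ?_ (le_of_eq ?_)
  · rw [Finset.union_sdiff_right]
    refine Finset.sum_le_sum fun p hp => ?_
    rw [Finset.mem_sdiff] at hp
    have hp' := Nat.prime_of_mem_primeFactors hp.1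
    have h2 : 1 ≤ n.natAbs.factorization p :=
      (hp'.dvd_iff_one_le_factorization h0).mp (Nat.dvd_of_mem_primeFactors hp.1)
    have h3 : (1 : ℝ) ≤ n.natAbs.factorization p := by exact_mod_cast h2
    have h4 : 0 ≤ Real.log (p : ℝ) := Real.log_nonneg (by exact_mod_cast hp'.one_lt.le)
    nlinarith
  · refine Finset.sum_congr rfl fun p hp => ?_
    rw [padicValInt, Nat.factorization_def _ (hS p hp)]

/-- **Vojta's inequality for points of degree `r` on the projective line.** Let `P_1, …, P_q` be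
`q ≥ 3` distinct rational points of the line, `D = P_1 + ⋯ + P_q`, `S` a finite set of primes and
`r ≥ 1`, and put `m = min q (r + 1)`. Let `ε ≤ q - 2`, `c` and `δ > 0` be real. Then for all
`B ≥ 1` the following two inequalities hold for all algebraic numbers `x` of degree `r` and height
at most `log B` outside the support of `D`, with at most
`C * B ^ (r * (r + 1) - r * m * (2 + ε) / q + δ)` exceptions:
`(q - 2) h(x) ≤ N(x) + ε h(x) + c` with `N` the truncated counting function of `D` outside `S`,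
and `∑_{v ∈ S ∪ {∞}} λ_{D,v}(x) + h_K(x) - d(x) ≤ ε h(x) + c` with `h_K = -2 h`. -/
theorem result (r q : ℕ) (hr : 1 ≤ r) (hq : 3 ≤ q) (P : Fin q → ℤ × ℤ)
    (hP : ∀ j, IsCoprime (P j).1 (P j).2)
    (hPP : ∀ i j, i ≠ j → (P i).1 * (P j).2 ≠ (P j).1 * (P i).2)
    (S : Finset ℕ) (hS : ∀ p ∈ S, p.Prime) (ε c δ : ℝ) (hε : ε ≤ q - 2) (hδ : 0 < δ) :
    ∃ C : ℝ, ∀ B : ℝ, 1 ≤ B → ∃ T : Finset ℂ,
      (T.card : ℝ) ≤ C * B ^ ((r : ℝ) * (r + 1) - r * (min q (r + 1) : ℕ) * (2 + ε) / q + δ) ∧
      ∀ (x : ℂ) (f : ℤ[X]), Pt P r B x f → x ∉ T →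
        (q - 2) * height f ≤ truncated S P f + ε * height f + c ∧
        proximity S P f + (-2) * height f - logDisc x ≤ ε * height f + c := by
  have hr0 : (0 : ℝ) < r := by exact_mod_cast hr
  have hq0 : (0 : ℝ) < q := by exact_mod_cast (show 0 < q by omega)
  have hP0 : ∀ j, P j ≠ 0 := by
    intro j h
    have h1 := hP j
    rw [h] at h1
    obtain ⟨a, b, hab⟩ := h1
    simp at hab
  have hdet : ∀ i j, i ≠ j → (P i).1 * (P j).2 - (P j).1 * (P i).2 ≠ 0 :=
    fun i j hij => sub_ne_zero.mpr (hPP i j hij)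
  have key : ∀ θ c δ : ℝ, 0 ≤ θ → 0 < δ → ∃ C : ℝ, ∀ B : ℝ, 1 ≤ B →
      {x : ℂ | ∃ f : ℤ[X], Pt P r B x f ∧ truncated S P f ≤ θ * height f + c}.Finite ∧
      ({x : ℂ | ∃ f : ℤ[X], Pt P r B x f ∧ truncated S P f ≤ θ * height f + c}.ncard : ℝ) ≤
        C * B ^ ((r : ℝ) * (r + 1 - (min q (r + 1) : ℕ) + (min q (r + 1) : ℕ) * θ / q) + δ) := by
    intro θ c δ hθ hδ
    obtain ⟨C, hC, hCN⟩ := Pool.Agent.H813R3.Voj.count_points r q hr (by omega) P hP0 hdet S
      (min q (r + 1)) (min_le_left _ _) (min_le_right _ _) θ (r * c) δ hθ hδ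
    refine ⟨C, fun B hB => ?_⟩
    refine Pool.Agent.H813R3.Voj.ncard_le_of_finset _ _ fun E hE => ?_
    refine hCN B hB E fun x hx => ?_
    obtain ⟨f, ⟨hirr, hdeg, hx0, hh, hv⟩, ht⟩ := hE hx
    have hf0 : f ≠ 0 := hirr.ne_zero
    have hM : 0 < (f.map (Int.castRingHom ℂ)).mahlerMeasure :=
      lt_of_lt_of_le one_pos (Pool.Agent.H813R3.Voj.one_le_mahler hf0)
    refine ⟨f, hf0, hdeg, hx0, ?_, hv, ?_⟩
    · show (f.map (Int.castRingHom ℂ)).mahlerMeasure ≤ B ^ r
      unfold height at hh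
      rw [hdeg, div_le_iff₀ hr0, mul_comm, ← Real.log_pow] at hh
      exact (Real.log_le_log_iff hM (by positivity)).mp hh
    · have h1 : Real.log (∏ j, (Pool.Agent.H813R3.Voj.rho S
          (Pool.Agent.H813R3.Voj.value f (P j)) : ℝ)) = r * truncated S P f := by
        rw [Real.log_prod]
        · unfold truncated
          rw [hdeg, mul_div_cancel₀ _ hr0.ne']
          exact Finset.sum_congr rfl fun j _ => log_rho S _
        · intro j _
          exact_mod_cast (Pool.Agent.H813R3.Voj.rho_pos S _).ne'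
      rw [h1]
      have h2 : Real.log (Pool.Agent.H813R3.Voj.mahler f) = r * height f := by
        unfold height
        rw [hdeg, mul_div_cancel₀ _ hr0.ne']
        rfl
      rw [h2]
      calc (r : ℝ) * truncated S P f ≤ r * (θ * height f + c) :=
            mul_le_mul_of_nonneg_left ht hr0.le
        _ = _ := by ring
  obtain ⟨C, hC⟩ := key (q - 2 - ε) (-c) δ (by linarith) hδ
  refine ⟨C, fun B hB => ?_⟩
  obtain ⟨h1, h2⟩ := hC B hB
  refine ⟨h1.toFinset, ?_, ?_⟩
  · rw [← Set.ncard_eq_toFinset_card _ h1]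
    refine h2.trans (le_of_eq ?_)
    congr 2
    field_simp
    ring
  intro x f hpt hxT
  have hlt : ¬ truncated S P f ≤ (q - 2 - ε) * height f + -c := by
    intro h
    exact hxT (h1.mem_toFinset.mpr ⟨f, hpt, h⟩)
  rw [not_le] at hlt
  obtain ⟨hirr, hdeg, hx0, hh, hv⟩ := hpt
  have hf0 : f ≠ 0 := hirr.ne_zero
  have hM : 0 < (f.map (Int.castRingHom ℂ)).mahlerMeasure :=
    lt_of_lt_of_le one_pos (Pool.Agent.H813R3.Voj.one_le_mahler hf0)
  have h3 : proximity S P f + truncated S P f ≤ q * height f := by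
    unfold proximity truncated height
    rw [hdeg, ← add_div, ← mul_div_assoc]
    refine div_le_div_of_nonneg_right ?_ hr0.le
    rw [← Finset.sum_add_distrib]
    have h4 : ∀ j ∈ (Finset.univ : Finset (Fin q)),
        Real.log ((f.map (Int.castRingHom ℂ)).mahlerMeasure / |(value f (P j) : ℝ)|) +
          ∑ p ∈ S, (padicValInt p (value f (P j)) : ℝ) * Real.log p +
          ∑ p ∈ (value f (P j)).natAbs.primeFactors \ S, Real.log p ≤
        Real.log (f.map (Int.castRingHom ℂ)).mahlerMeasure := by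
      intro j _
      have h5 := sum_le_log_abs S hS (value f (P j)) (hv j)
      have h6 : (0 : ℝ) < |(value f (P j) : ℝ)| := abs_pos.mpr (by exact_mod_cast hv j)
      rw [Real.log_div hM.ne' h6.ne']
      linarith
    refine (Finset.sum_le_sum h4).trans (le_of_eq ?_)
    rw [Finset.sum_const, Finset.card_univ, Fintype.card_fin, nsmul_eq_mul]
  have h7 := logDisc_nonneg x
  constructor <;> linarith

end Pool.Agent.Results.MP_651af7_nt.PointsOfTheLine
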