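import Mathlib
import Pool.Agent.H990R4.VJ.M

/-!
# Vojta's inequality for all points of degree at most two on the line, at the infinite place

Let `D = P_1 + ⋯ + P_q` be a sum of distinct points of the projective line, each of them rational
or defined over an imaginary quadratic field, and let `S` consist of the infinite place. For all
algebraic points `x` of degree at most `r` outside `D` the proximity to `D` is at most
`r h(x) + C`. For `r = 2` this is Vojta's inequality (with `ε = 0`) for all quadratic points, of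
arbitrary quadratic fields.
-/

set_option autoImplicit false

namespace Pool.Agent.Results.MP_651af7_nt.QuadraticPoints

open Polynomial IntermediateField

/-- The absolute logarithmic height `(log M(f)) / deg f` of the roots of an irreducible primitive
`f` (`M` is the Mahler measure). -/
noncomputable def height (f : ℤ[X]) : ℝ :=
  Real.log (f.map (Int.castRingHom ℂ)).mahlerMeasure / f.natDegree

/-- `λ_{P,∞}(x)` for the point `P = (u : v)` of the line: the average over the conjugates `z` of
`x`, i.e. the roots of `f`, of `log (max(1,|z|) / |u - z v|)`. -/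
noncomputable def lambdaInf (P : ℂ × ℂ) (f : ℤ[X]) : ℝ :=
  ((f.map (Int.castRingHom ℂ)).roots.map fun z =>
    Real.log (max 1 ‖z‖ / ‖P.1 - z * P.2‖)).sum / f.natDegree

open Classical in
/-- The logarithmic discriminant `d(x)` of the field `ℚ(x)`. -/
noncomputable def logDisc (x : ℂ) : ℝ :=
  if _ : NumberField ℚ⟮x⟯ then
    Real.log |(NumberField.discr ℚ⟮x⟯ : ℝ)| / Module.finrank ℚ ℚ⟮x⟯ else 0

/-- `z` lies in the ring `ℤ[√(-d)]`. -/
def InZSqrt (d : ℕ) (z : ℂ) : Prop := ∃ a b : ℤ, z = a + b * (√(d : ℝ) * Complex.I)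

lemma logDisc_nonneg (x : ℂ) : 0 ≤ logDisc x := by
  unfold logDisc
  split_ifs with h
  · refine div_nonneg (Real.log_nonneg ?_) (Nat.cast_nonneg _)
    have h1 : NumberField.discr ℚ⟮x⟯ ≠ 0 := NumberField.discr_ne_zero _
    have h2 : 1 ≤ |NumberField.discr ℚ⟮x⟯| := Int.one_le_abs h1
    exact_mod_cast h2
  · exact le_rfl

/-- **Vojta's inequality for points of degree at most two on the line.** Let `P_1, …, P_q` be
distinct points of the projective line, given by homogeneous coordinates in rings `ℤ[√(-d_j)]`,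
`d_j ≥ 0` (so each `P_j` is any point which is rational or defined over an imaginary quadratic
field), `D = P_1 + ⋯ + P_q` and `r ≥ 1`. There is `C` such that for all algebraic numbers `x` of
degree at most `r` without conjugates in the support of `D`
`λ_{D,∞}(x) + h_K(x) - d(x) ≤ (r - 2) h(x) + C`, with `h_K = -2 h`. -/
theorem result (r q : ℕ) (P : Fin q → ℂ × ℂ)
    (hP : ∀ j, ∃ d : ℕ, InZSqrt d (P j).1 ∧ InZSqrt d (P j).2)
    (hPP : ∀ i j, i ≠ j → (P i).1 * (P j).2 ≠ (P j).1 * (P i).2) :
    ∃ C : ℝ, ∀ (x : ℂ) (f : ℤ[X]), Irreducible f → 1 ≤ f.natDegree → f.natDegree ≤ r →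
      aeval x f = 0 → (∀ z : ℂ, aeval z f = 0 → ∀ j, (P j).1 ≠ z * (P j).2) →
      ∑ j, lambdaInf (P j) f + (-2) * height f - logDisc x ≤ ((r : ℝ) - 2) * height f + C := by
  classical
  choose C hC using fun n : ℕ => Pool.Agent.H990R4.VJ.main_bound n q P hP hPP
  refine ⟨∑ n ∈ Finset.range (r + 1), |C n|, fun x f hirr h1 hr hx hne => ?_⟩
  have hf0 : f ≠ 0 := hirr.ne_zero
  set n : ℕ := f.natDegree with hn
  have hn0 : (0 : ℝ) < n := by exact_mod_cast h1
  have hn1 : (1 : ℝ) ≤ n := by exact_mod_cast h1
  have hform : ∀ j, Pool.Agent.H990R4.VJ.form n f (P j) ≠ 0 := by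
    intro j h0
    rw [hn, Pool.Agent.H990R4.VJ.form_eq, mul_eq_zero] at h0
    rcases h0 with h0 | h0
    · exact hf0 (leadingCoeff_eq_zero.1 (by exact_mod_cast h0))
    · obtain ⟨z, hz, hz0⟩ := Multiset.mem_map.1 (Multiset.prod_eq_zero_iff.1 h0)
      rw [mem_roots'] at hz
      refine hne z ?_ j (sub_eq_zero.1 hz0)
      have := hz.2
      rw [IsRoot.def, eval_map] at this
      rw [aeval_def]; exact this
  have hmain := hC n f hf0 rfl hform
  have hM1 : 1 ≤ Pool.Agent.H990R4.VJ.mm f := Pool.Agent.H990R4.VJ.one_le_mm hf0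
  have hheight : height f = Real.log (Pool.Agent.H990R4.VJ.mm f) / n := rfl
  have hh0 : 0 ≤ height f := by
    rw [hheight]
    exact div_nonneg (Real.log_nonneg hM1) hn0.le
  have hlam : ∑ j, lambdaInf (P j) f = (∑ j, (Real.log (Pool.Agent.H990R4.VJ.mm f) -
      Real.log ‖Pool.Agent.H990R4.VJ.form n f (P j)‖)) / n := by
    rw [Finset.sum_div]
    refine Finset.sum_congr rfl fun j _ => ?_
    unfold lambdaInf
    rw [Pool.Agent.H990R4.VJ.sum_log_form f (P j) hf0 (hform j)]
  have hb : ∑ j, lambdaInf (P j) f ≤ n * height f + |C n| := by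
    rw [hlam, div_le_iff₀ hn0]
    have e1 : (n * height f + |C n|) * n = n * Real.log (Pool.Agent.H990R4.VJ.mm f) + |C n| * n := by
      rw [hheight]; field_simp
    rw [e1]
    have e2 : C n ≤ |C n| * n := by
      have := le_abs_self (C n)
      have := abs_nonneg (C n)
      nlinarith
    linarith
  have hsum : |C n| ≤ ∑ n ∈ Finset.range (r + 1), |C n| :=
    Finset.single_le_sum (f := fun n => |C n|) (fun _ _ => abs_nonneg _)
      (Finset.mem_range.2 (Nat.lt_succ_of_le hr))
  have hnr : (n : ℝ) ≤ r := by exact_mod_cast hr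
  have hd := logDisc_nonneg x
  have hmul : (n : ℝ) * height f ≤ r * height f := mul_le_mul_of_nonneg_right hnr hh0
  linarith

end Pool.Agent.Results.MP_651af7_nt.QuadraticPoints
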