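import Mathlib
import Pool.Agent.H990R4.VJ.R

/-!
# Vojta's inequality for points of degree `r` on the projective line

Let `D` be an arbitrary reduced divisor of degree `q` on the projective line over `ℚ` (its points
need not be rational), `S` a finite set of primes and `r ≥ 1`. Vojta's inequality for algebraic
points of degree `r` with respect to `D` and the places of `S` and infinity holds for all points of
height at most `log B`, with at most `C B ^ (r² + r max (0, 1 - (2 + ε) / min (q, r)) + δ)`
exceptions; there are about `B ^ (r² + r)` points of degree `r` and height at most `log B`.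

A reduced effective divisor of degree `q` over `ℚ` is given by a squarefree `G ∈ ℤ[T]` of degree
`q` or `q - 1`: `D = div₀(G) + (q - deg G) ∞`.

Proof: at each place at most `r` of the points of `D` can be close to the conjugates of `x` (general
position of the values `f(P)`, over `ℂ` and over an algebraic closure of `ℚ_p`), so the nearest one
carries a share `1 / min (q, r)` of the proximity; then one counts on lines of polynomials `f`.
-/

set_option autoImplicit false

namespace Pool.Agent.Results.MP_651af7_nt.ReducedDivisors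

open Polynomial IntermediateField

/-- The absolute logarithmic height `(log M(f)) / deg f` of the roots of an irreducible primitive
`f` (`M` is the Mahler measure). -/
noncomputable def height (f : ℤ[X]) : ℝ :=
  Real.log (f.map (Int.castRingHom ℂ)).mahlerMeasure / f.natDegree

/-- `λ_{D,∞}(x)` for the divisor `D` of degree `q` given by `G`: the average over the conjugates
`z` of `x`, i.e. the roots of `f`, of `log (max(1,|z|)^q / |G(z)|)`. -/
noncomputable def lambdaInf (G : ℤ[X]) (q : ℕ) (f : ℤ[X]) : ℝ :=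
  ((f.map (Int.castRingHom ℂ)).roots.map fun z =>
    Real.log (max 1 ‖z‖ ^ q / ‖(G.map (Int.castRingHom ℂ)).eval z‖)).sum / f.natDegree

/-- `λ_{D,p}(x)`, the average over the conjugates `z` of `x` over `ℚ_p` of
`log (max(1,|z|_p)^q / |G(z)|_p)`; for primitive `f` the sum over the conjugates is
`-log |Res(f,G)|_p`, with `Res` the resultant for the degrees `deg f` and `q`. -/
noncomputable def lambdaP (p : ℕ) (G : ℤ[X]) (q : ℕ) (f : ℤ[X]) : ℝ :=
  (padicValInt p (resultant f G f.natDegree q) : ℝ) * Real.log p / f.natDegree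

open Classical in
/-- The logarithmic discriminant `d(x)` of the field `ℚ(x)`. -/
noncomputable def logDisc (x : ℂ) : ℝ :=
  if _ : NumberField ℚ⟮x⟯ then
    Real.log |(NumberField.discr ℚ⟮x⟯ : ℝ)| / Module.finrank ℚ ℚ⟮x⟯ else 0

/-- `x` is an algebraic number of degree `r` with minimal polynomial `f` over `ℤ`, of height at
most `log B`, and not in the support of `D`. -/
def Pt (G : ℤ[X]) (r : ℕ) (B : ℝ) (x : ℂ) (f : ℤ[X]) : Prop :=
  Irreducible f ∧ f.natDegree = r ∧ aeval x f = 0 ∧ height f ≤ Real.log B ∧ aeval x G ≠ 0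

lemma logDisc_nonneg (x : ℂ) : 0 ≤ logDisc x := by
  unfold logDisc
  split_ifs with h
  · refine div_nonneg (Real.log_nonneg ?_) (Nat.cast_nonneg _)
    have h1 : NumberField.discr ℚ⟮x⟯ ≠ 0 := NumberField.discr_ne_zero _
    have h2 : 1 ≤ |NumberField.discr ℚ⟮x⟯| := Int.one_le_abs h1
    exact_mod_cast h2
  · exact le_rfl

/-- a root of `f` outside the support of `D` has nonzero resultant -/
lemma resultant_ne (f G : ℤ[X]) (q : ℕ) (hGq : G.natDegree ≤ q) (hf : Irreducible f)
    (hd : 1 ≤ f.natDegree) (x : ℂ) (hx : aeval x f = 0) (hG : aeval x G ≠ 0) :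
    resultant f G f.natDegree q ≠ 0 := by
  intro h0
  have h1 := Pool.Agent.H990R4.VJ.res_eq f G q hGq
  rw [h0, Int.cast_zero, eq_comm, mul_eq_zero] at h1
  rcases h1 with h1 | h1
  · have h2 : (f.leadingCoeff : ℂ) = 0 := by
      by_contra hne
      exact (pow_ne_zero q hne) h1
    exact hf.ne_zero (leadingCoeff_eq_zero.1 (by exact_mod_cast h2))
  · obtain ⟨z, hz, hz0⟩ := Multiset.mem_map.1 (Multiset.prod_eq_zero_iff.1 h1)
    rw [mem_roots'] at hz
    have hzf : aeval z f = 0 := by
      have := hz.2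
      rw [IsRoot.def, eval_map] at this
      rw [aeval_def]; exact this
    have hzG : aeval z G = 0 := by
      rw [eval_map] at hz0
      rw [aeval_def]; exact hz0
    have hprim : f.IsPrimitive := hf.isPrimitive (by omega)
    have hirr : Irreducible (f.map (algebraMap ℤ ℚ)) :=
      (hprim.irreducible_iff_irreducible_map_fraction_map).1 hf
    have hzf' : aeval z (f.map (algebraMap ℤ ℚ)) = 0 := by rw [aeval_map_algebraMap]; exact hzf
    have hzG' : aeval z (G.map (algebraMap ℤ ℚ)) = 0 := by rw [aeval_map_algebraMap]; exact hzG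
    have hm1 : minpoly ℚ z ∣ f.map (algebraMap ℤ ℚ) := minpoly.dvd ℚ z hzf'
    have hm2 : minpoly ℚ z ∣ G.map (algebraMap ℤ ℚ) := minpoly.dvd ℚ z hzG'
    have hint : IsIntegral ℚ z := by
      rw [← isAlgebraic_iff_isIntegral]
      exact ⟨f.map (algebraMap ℤ ℚ), hirr.ne_zero, hzf'⟩
    have hass : Associated (minpoly ℚ z) (f.map (algebraMap ℤ ℚ)) :=
      (minpoly.irreducible hint).associated_of_dvd hirr hm1
    have hdvd : f.map (algebraMap ℤ ℚ) ∣ G.map (algebraMap ℤ ℚ) := hass.symm.dvd.trans hm2
    obtain ⟨k, hk⟩ := hdvd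
    apply hG
    have h5 : aeval x (G.map (algebraMap ℤ ℚ)) = 0 := by
      rw [hk, map_mul, aeval_map_algebraMap, hx, zero_mul]
    rwa [aeval_map_algebraMap] at h5

/-- **Vojta's inequality for points of degree `r` and reduced divisors on the line.** Let `D` be
the reduced effective divisor of degree `q ≥ 1` on the projective line over `ℚ` given by `G`, `S` a
finite set of primes, `r ≥ 1`, `ε`, `c` and `δ > 0` real. Then for all `B ≥ 1`, with at most
`C * B ^ (r * r + r * max 0 (1 - (2 + ε) / min q r) + δ)` exceptions, all algebraic numbers `x` of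
degree `r` and height at most `log B` outside the support of `D` satisfy
`∑_{v ∈ S ∪ {∞}} λ_{D,v}(x) + h_K(x) - d(x) ≤ ε h(x) + c`, with `h_K = -2 h`. -/
theorem result (r q : ℕ) (hr : 1 ≤ r) (hq : 1 ≤ q) (G : ℤ[X])
    (hG : Squarefree (G.map (Int.castRingHom ℚ))) (hGq : G.natDegree ≤ q)
    (hqG : q ≤ G.natDegree + 1) (S : Finset ℕ) (hS : ∀ p ∈ S, p.Prime) (ε c δ : ℝ) (hδ : 0 < δ) :
    ∃ C : ℝ, ∀ B : ℝ, 1 ≤ B → ∃ T : Finset ℂ,
      (T.card : ℝ) ≤ C * B ^ ((r : ℝ) * r + r * max 0 (1 - (2 + ε) / (min q r : ℕ)) + δ) ∧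
      ∀ (x : ℂ) (f : ℤ[X]), Pt G r B x f → x ∉ T →
        lambdaInf G q f + ∑ p ∈ S, lambdaP p G q f + (-2) * height f - logDisc x ≤
          ε * height f + c := by
  have hr0 : (0 : ℝ) < r := by exact_mod_cast hr
  have hG0 : G ≠ 0 := by
    rintro rfl
    rw [Polynomial.map_zero] at hG
    exact hG.ne_zero rfl
  have hsep : (G.map (Int.castRingHom ℚ)).Separable := PerfectField.separable_iff_squarefree.2 hG
  set m := min q r with hm
  have hm1 : 1 ≤ m := le_min hq hr
  have hm0 : (0 : ℝ) < m := by exact_mod_cast hm1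
  have hmq : m ≤ q := min_le_left _ _
  obtain ⟨C, hC⟩ := Pool.Agent.H990R4.VJ.Red.count3 r q hr hq G hG0 hsep hGq hqG S hS
    (r * max 0 (m - 2 - ε)) (-(r * c)) δ (mul_nonneg hr0.le (le_max_left _ _)) hδ
  refine ⟨C, fun B hB => ?_⟩
  have hB0 : 0 < B := by linarith
  set V : Set ℂ := {x | ∃ f : ℤ[X], Pt G r B x f ∧ ¬ (lambdaInf G q f + ∑ p ∈ S, lambdaP p G q f +
    (-2) * height f - logDisc x ≤ ε * height f + c)} with hV
  have hcount : ∀ E : Finset ℂ, (E : Set ℂ) ⊆ V → (E.card : ℝ) ≤
      C * B ^ ((r : ℝ) * r + r * max 0 (1 - (2 + ε) / (m : ℕ)) + δ) := by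
    intro E hE
    refine (hC B hB E fun x hx => ?_).trans (le_of_eq ?_)
    · obtain ⟨f, ⟨hirr, hdeg, hx0, hh, hxG⟩, hn⟩ := hE hx
      have hf0 : f ≠ 0 := hirr.ne_zero
      have hM1 : 1 ≤ Pool.Agent.H990R4.VJ.mm f := Pool.Agent.H990R4.VJ.one_le_mm hf0
      have hM : 0 < Pool.Agent.H990R4.VJ.mm f := lt_of_lt_of_le one_pos hM1
      have hMle : Pool.Agent.H990R4.VJ.mm f ≤ B ^ r := by
        unfold height at hh
        rw [hdeg, div_le_iff₀ hr0, mul_comm, ← Real.log_pow] at hh
        exact (Real.log_le_log_iff hM (by positivity)).mp hh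
      have hR := resultant_ne f G q hGq hirr (by omega) x hx0 hxG
      have hsum := Pool.Agent.H990R4.VJ.sum_log_eq f G q hGq hf0 hR
      rw [hdeg] at hR hsum
      refine ⟨f, hf0, hdeg, hx0, hMle, hirr.isPrimitive (by omega), hR, ?_⟩
      rw [not_le] at hn
      have hd := logDisc_nonneg x
      have hn2 : (2 + ε) * height f + c < lambdaInf G q f + ∑ p ∈ S, lambdaP p G q f := by
        linarith
      unfold height lambdaInf lambdaP at hn2
      rw [hdeg, hsum, ← Finset.sum_div, ← add_div, lt_div_iff₀ hr0] at hn2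
      have hn3 : ((2 + ε) * (Real.log (f.map (Int.castRingHom ℂ)).mahlerMeasure / r) + c) * r =
          (2 + ε) * Real.log (Pool.Agent.H990R4.VJ.mm f) + r * c := by
        unfold Pool.Agent.H990R4.VJ.mm
        field_simp
      rw [hn3] at hn2
      have hRpos : (0 : ℝ) < |((resultant f G r q : ℤ) : ℝ)| := abs_pos.2 (by exact_mod_cast hR)
      have hppos : ∀ p ∈ S, (0 : ℝ) < (p : ℝ) ^ padicValInt p (resultant f G r q) :=
        fun p hp => pow_pos (by exact_mod_cast (hS p hp).pos) _
      have hprod : (0 : ℝ) < ∏ p ∈ S, (p : ℝ) ^ padicValInt p (resultant f G r q) :=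
        Finset.prod_pos hppos
      rw [← Real.log_le_log_iff hRpos (by positivity), Real.log_mul (by positivity) (by positivity),
        Real.log_mul (by positivity) hprod.ne', Real.log_pow,
        Real.log_mul (by positivity) (by positivity), Real.log_exp, Real.log_rpow hB0,
        Real.log_prod fun p hp => (hppos p hp).ne']
      have hlp : ∑ p ∈ S, Real.log ((p : ℝ) ^ padicValInt p (resultant f G r q)) =
          ∑ p ∈ S, (padicValInt p (resultant f G r q) : ℝ) * Real.log p :=
        Finset.sum_congr rfl fun p _ => Real.log_pow _ _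
      rw [hlp]
      have hlM0 : 0 ≤ Real.log (Pool.Agent.H990R4.VJ.mm f) := Real.log_nonneg hM1
      have hlM : Real.log (Pool.Agent.H990R4.VJ.mm f) ≤ r * Real.log B := by
        rw [← Real.log_pow]
        exact Real.log_le_log hM hMle
      have hmul1 : (m - 2 - ε) * Real.log (Pool.Agent.H990R4.VJ.mm f) ≤
          max 0 (m - 2 - ε) * Real.log (Pool.Agent.H990R4.VJ.mm f) :=
        mul_le_mul_of_nonneg_right (le_max_right _ _) hlM0
      have hmul2 : max 0 (m - 2 - ε) * Real.log (Pool.Agent.H990R4.VJ.mm f) ≤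
          max 0 (m - 2 - ε) * (r * Real.log B) :=
        mul_le_mul_of_nonneg_left hlM (le_max_left _ _)
      have hcast : ((q - m : ℕ) : ℝ) = (q : ℝ) - m := by
        rw [Nat.cast_sub hmq]
      rw [hcast]
      nlinarith
    · have e1 : r * max 0 ((m : ℝ) - 2 - ε) / (m : ℕ) = r * max 0 (1 - (2 + ε) / (m : ℕ)) := by
        rcases le_total 0 ((m : ℝ) - 2 - ε) with h | h
        · have h' : 0 ≤ 1 - (2 + ε) / (m : ℝ) := by
            rw [sub_nonneg, div_le_one hm0]; linarith
          rw [max_eq_right h, max_eq_right h']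
          field_simp
          ring
        · have h' : 1 - (2 + ε) / (m : ℝ) ≤ 0 := by
            rw [sub_nonpos, one_le_div hm0]; linarith
          rw [max_eq_left h, max_eq_left h']
          simp
      rw [e1]
      congr 2
      ring
  have hfin : V.Finite := by
    by_contra hinf
    obtain ⟨E, hEV, hEc⟩ := Set.Infinite.exists_subset_card_eq hinf
      (⌊C * B ^ ((r : ℝ) * r + r * max 0 (1 - (2 + ε) / (m : ℕ)) + δ)⌋₊ + 1)
    have h1 := hcount E hEV
    have h2 := Nat.lt_floor_add_one (C * B ^ ((r : ℝ) * r + r * max 0 (1 - (2 + ε) / (m : ℕ)) + δ))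
    rw [hEc] at h1
    push_cast at h1
    linarith
  refine ⟨hfin.toFinset, hcount _ (by rw [Set.Finite.coe_toFinset]), fun x f hpt hxT => ?_⟩
  by_contra hcon
  exact hxT (hfin.mem_toFinset.mpr ⟨f, hpt, hcon⟩)

end Pool.Agent.Results.MP_651af7_nt.ReducedDivisors
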