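import Mathlib
import Pool.Agent.H533R3.SL.Northcott

/-!
# Sparse algebraic points of bounded degree

Let `X` be an integral closed subvariety of projective `n`-space over a number field `k`, for
instance over `ℚ`, which is not uniruled.  For every `r` there is a proper closed subset `Z` of `X`
such that for every `B` and every degree `δ` only finitely many complex points of `X` off `Z` are
defined over some number field of degree at most `δ` and have integral homogeneous coordinates
over this field which are sums of `r` terms `b ^ m • v`, in some base `b ≥ 2`, with `v` of house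
at most `B`.  All of them, in all degrees, have integral homogeneous coordinates of house at most
an explicit number which does not depend on `δ`.
-/

namespace Pool.Agent.Results.MP_651af7_nt.SparseAlgebraicPoints

open NumberField Pool.Agent.H458.Sp Pool.Agent.H533R3.SL

/-- the explicit bound for the house of the coordinates -/
noncomputable def bound (d : ℕ) (A : ℝ) (r : ℕ) (B : ℝ) : ℝ :=
  Real.exp ((8 * d * (6 + 8 * d + 4 * Real.log A)) ^ r *
    (1 + Real.log B + Real.log (A * (r * B) ^ d)))

theorem result (k : Type) [Field k] [NumberField k] (n : ℕ)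
    (FF : Finset (MvPolynomial (Fin (n + 1)) (𝓞 k))) (d : ℕ) (hd : 1 ≤ d) (A : ℝ) (hA : 1 ≤ A)
    (hFF : ∀ F ∈ FF, (∃ e, e ≤ d ∧ F.IsHomogeneous e) ∧ nrm F ≤ A)
    (hprime : (idealK FF).IsPrime) (hnu : ¬ Uniruled (idealK FF)) (r : ℕ) (hr : 1 ≤ r) :
    ∃ G : MvPolynomial (Fin (n + 1)) k, (∃ e, G.IsHomogeneous e) ∧ G ∉ idealK FF ∧
      ∀ B : ℝ, 1 ≤ B → ∀ δ : ℕ, (algPoints FF G r B δ).Finite ∧
        algPoints FF G r B δ ⊆ smallAlg n δ (bound d A r B) := by
  obtain ⟨G, h1, h2, h3⟩ := algPoints_small k n FF d hd A hA hFF hprime hnu r hr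
  exact ⟨G, h1, h2, fun B hB δ => ⟨(smallAlg_finite n δ _).subset (h3 B hB δ), h3 B hB δ⟩⟩

end Pool.Agent.Results.MP_651af7_nt.SparseAlgebraicPoints
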